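import Pool.Agent.K7.H48.Fresh

/-!
# Tree Prikry forcing adds no fresh subsets of `κ⁺`

Conditions with the same stem are compatible and there are only `κ` stems. Let `A` be a name for a
subset of an ordinal of cofinality above `κ` whose initial segments are in the ground model. For all
`a` some condition decides the part of `A` below `a`, and one stem is used for unboundedly many
`a`. The decided parts cohere, so they have a union `D` in the ground model. If `A` was not `D`,
then the conditions deciding some `x` to be in exactly one of the two sets would be dense. For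
each stem pick one such `x`, if there is one; these `x` are bounded below some `a` as above, and
this contradicts the compatibility of the conditions with the same stem.
-/

set_option autoImplicit false

namespace Pool.Agent.Results.MP_becacd_lc.NoFreshSubset

open Cardinal Order Pool.Agent.Helper669.Forcing Pool.Agent.K7.H48.Fresh

universe u

/-- The intersection of fewer than `κ` members of `U` belongs to `U`. -/
def Complete (κ : Cardinal.{u}) {K : Type u} (U : Ultrafilter K) : Prop :=
  ∀ F : Set (Set K), #F < κ → (∀ A ∈ F, A ∈ U) → ⋂₀ F ∈ U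

theorem above_mem {κ : Cardinal.{u}} (hκ : ℵ₀ < κ) {U : Ultrafilter κ.ord.ToType}
    (hc : Complete κ U) (hn : ∀ a, {a} ∉ U) (c : κ.ord.ToType) : {a | c < a} ∈ U := by
  have h1 : #(Set.Iic c) < κ := by
    have h2 : #(Set.Iio c) < κ := Cardinal.mk_Iio_toType_ord_lt c
    have h3 : Set.Iic c = Set.insert c (Set.Iio c) := (Set.Iio_insert).symm
    rw [h3]
    exact (Cardinal.mk_insert_le).trans_lt (Cardinal.add_lt_of_lt hκ.le h2
      (Cardinal.one_lt_aleph0.trans hκ))
  have h4 := hc (Set.range fun b : Set.Iic c => ({b.1}ᶜ : Set κ.ord.ToType))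
    (Cardinal.mk_range_le.trans_lt h1) (by
      rintro _ ⟨b, rfl⟩
      exact Ultrafilter.compl_mem_iff_notMem.2 (hn _))
  refine Filter.mem_of_superset h4 fun a ha => ?_
  by_contra hca
  have hac : a ≤ c := not_lt.1 hca
  have h5 : a ∈ ({a}ᶜ : Set κ.ord.ToType) := ha _ ⟨⟨a, hac⟩, rfl⟩
  exact h5 rfl

theorem nonempty_treePrikry {κ : Cardinal.{u}} (hκ : ℵ₀ < κ) {U : Ultrafilter κ.ord.ToType}
    (hc : Complete κ U) (hn : ∀ a, {a} ∉ U) : Nonempty (TreePrikry U) := by
  refine ⟨⟨[], {t | Incr t}, fun t ht => ht, fun t ht r hr => ht.sublist hr.sublist,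
    List.Pairwise.nil, fun t _ => Or.inr (List.nil_prefix), fun t ht _ => ?_⟩⟩
  have h : ∀ s : List κ.ord.ToType, {a | ∀ b ∈ s, b < a} ∈ U := by
    intro s
    induction s with
    | nil => exact Filter.mem_of_superset Filter.univ_mem fun a _ b hb => absurd hb (by simp)
    | cons c s ih =>
      refine Filter.mem_of_superset (Filter.inter_mem (above_mem hκ hc hn c) ih) ?_
      rintro a ⟨ha, ha'⟩ b hb
      rcases List.mem_cons.1 hb with rfl | hb
      · exact ha
      · exact ha' b hb
  refine Filter.mem_of_superset (h t) fun a ha => ?_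
  refine List.pairwise_append.2 ⟨ht, List.pairwise_singleton _ _, fun b hb c hc => ?_⟩
  rw [List.mem_singleton.1 hc]
  exact ha b hb

theorem noFresh {κ : Cardinal.{u}} (hκ : ℵ₀ < κ) (U : Ultrafilter κ.ord.ToType)
    (o : Ordinal.{u}) (ho : κ < o.cof) (p : TreePrikry U) :
    p ∈ NoFresh (TreePrikry U) o := by
  intro A q _
  refine noFresh_aux (C := List κ.ord.ToType) TreePrikry.stem (fun p q h => compat_of_stem h) ?_ A q
  have hinf : Infinite κ.ord.ToType := by
    rw [Cardinal.infinite_iff, Cardinal.mk_ord_toType]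
    exact hκ.le
  rw [Cardinal.mk_list_eq_mk, Cardinal.mk_ord_toType, Ordinal.cof_toType]
  exact ho

/-- Let `κ` be uncountable and `U` a `κ`-complete nonprincipal ultrafilter on `κ`. Then tree Prikry
forcing for `U` adds no fresh subset of `κ⁺`, nor of any ordinal of cofinality greater than `κ`. -/
theorem result (κ : Cardinal.{u}) (hκ : ℵ₀ < κ) (U : Ultrafilter κ.ord.ToType)
    (hc : Complete κ U) (hn : ∀ a, {a} ∉ U) :
    Nonempty (TreePrikry U) ∧
    (∀ p : TreePrikry U, p ∈ NoFresh (TreePrikry U) (succ κ).ord) ∧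
    ∀ o : Ordinal.{u}, κ < o.cof → ∀ p : TreePrikry U, p ∈ NoFresh (TreePrikry U) o := by
  refine ⟨nonempty_treePrikry hκ hc hn, noFresh hκ U _ ?_, noFresh hκ U⟩
  rw [(Cardinal.isRegular_succ hκ.le).cof_ord]
  exact lt_succ κ

end Pool.Agent.Results.MP_becacd_lc.NoFreshSubset
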